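import Mathlib
import Pool.Agent.H90.P.Ns
import Pool.Agent.H90.P.Helper386.D5V.Helper386_FF_Place

/-!
Pluricanonical forms on the models of a function field, and varieties of general type.
-/

set_option autoImplicit false

open FF

namespace Pool.Agent.W602.GT

variable {k K : Type} [Field k] [Field K] [Algebra k K]

/-- `P` is a prime divisor on some normal model of `K`, a field of transcendence degree `w` over
`k`: its residue field has transcendence degree at least `w - 1` over `k`. -/
def Divisorial (w : ℕ) (P : Place k K) : Prop :=
  ∃ u : Fin (w - 1) → K, ∀ F : MvPolynomial (Fin (w - 1)) k, F ≠ 0 →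
    MvPolynomial.aeval u F ≠ 0 ∧ P.ord (MvPolynomial.aeval u F) = 0

/-- The derivation `D` (a rational vector field) is regular at `P`: it maps the valuation ring of
`P` into itself. -/
def DerReg (P : Place k K) (D : Derivation k K K) : Prop := ∀ f, P.Reg f → P.Reg (D f)

/-- The derivation `D` is logarithmic at `P`: `D f / f` is regular at `P` for all `f`. -/
def DerLog (P : Place k K) (D : Derivation k K K) : Prop := ∀ f, P.Reg (D f / f)

/-- `ω` is a rational section of the `N`-th power of the canonical bundle on the models of `K`: a
function of `w` rational vector fields which is multiplied by `det A ^ N` under a linear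
substitution `A`. -/
def IsPluri (N : ℕ) {w : ℕ} (ω : (Fin w → Derivation k K K) → K) : Prop :=
  ∀ (A : Matrix (Fin w) (Fin w) K) (D : Fin w → Derivation k K K),
    ω (fun i => ∑ j, A i j • D j) = A.det ^ N * ω D

/-- `ω` is regular at `P`: its values on regular vector fields are regular. -/
def RegAt (P : Place k K) {w : ℕ} (ω : (Fin w → Derivation k K K) → K) : Prop :=
  ∀ D : Fin w → Derivation k K K, (∀ i, DerReg P (D i)) → P.Reg (ω D)

variable (k K)

end Pool.Agent.W602.GT
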