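import Mathlib
import Pool.Agent.H90.P.Ns

/-!
Derivations of finitely generated fields of characteristic zero.
-/

set_option autoImplicit false

open MvPolynomial

namespace Pool.Agent.W602.GT

section ext

variable {L K : Type} [Field L] [Field K] [Algebra L K]

/-- the algebra structure given by a family of elements -/
theorem alg_of_basis {ι : Type} (t : ι → K) (ht : IsTranscendenceBasis L t) :
    letI : Algebra (MvPolynomial ι L) K :=
      ((aeval t : MvPolynomial ι L →ₐ[L] K) : MvPolynomial ι L →+* K).toAlgebra
    Algebra.IsAlgebraic (MvPolynomial ι L) K := by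
  let _ : Algebra (MvPolynomial ι L) K :=
    ((aeval t : MvPolynomial ι L →ₐ[L] K) : MvPolynomial ι L →+* K).toAlgebra
  have h1 := ht.isAlgebraic
  refine Algebra.IsAlgebraic.of_ringHom_of_comp_eq
    (f := (ht.1.aevalEquiv : MvPolynomial ι L ≃ₐ[L] Algebra.adjoin L (Set.range t)))
    (g := RingHom.id K) ?_ Function.injective_id ?_
  · exact ht.1.aevalEquiv.surjective
  · ext x
    · simp [RingHom.algebraMap_toAlgebra]
    · simp [RingHom.algebraMap_toAlgebra]

variable [CharZero L]

/-- derivations can be prescribed on a transcendence basis -/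
theorem exists_der {ι : Type} (t : ι → K) (ht : IsTranscendenceBasis L t) (c : ι → K) :
    ∃ D : Derivation L K K, ∀ i, D (t i) = c i := by
  have hinj : Function.Injective (aeval t : MvPolynomial ι L →ₐ[L] K) :=
    ht.1
  have halg := alg_of_basis t ht
  let _ : Algebra (MvPolynomial ι L) K :=
    ((aeval t : MvPolynomial ι L →ₐ[L] K) : MvPolynomial ι L →+* K).toAlgebra
  have hst : IsScalarTower L (MvPolynomial ι L) K := IsScalarTower.of_algebraMap_eq' (by
    ext c
    simp [RingHom.algebraMap_toAlgebra])
  have hfs : FaithfulSMul (MvPolynomial ι L) K := (faithfulSMul_iff_algebraMap_injective _ _).2 hinj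
  let _ : Algebra (FractionRing (MvPolynomial ι L)) K := FractionRing.liftAlgebra (MvPolynomial ι L) K
  have hst2 : IsScalarTower (MvPolynomial ι L) (FractionRing (MvPolynomial ι L)) K := inferInstance
  have halg2 : Algebra.IsAlgebraic (FractionRing (MvPolynomial ι L)) K :=
    (IsFractionRing.comap_isAlgebraic_iff (A := MvPolynomial ι L)
      (K := FractionRing (MvPolynomial ι L)) (C := K)).1 halg
  have hchar : CharZero (FractionRing (MvPolynomial ι L)) := inferInstance
  have hsep : Algebra.IsSeparable (FractionRing (MvPolynomial ι L)) K := inferInstance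
  have h1 : Algebra.FormallyEtale (FractionRing (MvPolynomial ι L)) K :=
    Algebra.FormallyEtale.of_isSeparable _ _
  have h2 : Algebra.FormallyEtale (MvPolynomial ι L) (FractionRing (MvPolynomial ι L)) :=
    Algebra.FormallyEtale.of_isLocalization (nonZeroDivisors (MvPolynomial ι L))
  have h3 : Algebra.FormallyEtale (MvPolynomial ι L) K :=
    Algebra.FormallyEtale.comp (MvPolynomial ι L) (FractionRing (MvPolynomial ι L)) K
  let e := KaehlerDifferential.tensorKaehlerEquivOfFormallyEtale L (MvPolynomial ι L) K
  let d : Derivation L (MvPolynomial ι L) K := MvPolynomial.mkDerivation L c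
  let l : Ω[MvPolynomial ι L⁄L] →ₗ[MvPolynomial ι L] K := d.liftKaehlerDifferential
  let Λ : Ω[K⁄L] →ₗ[K] K := (LinearMap.liftBaseChange K l).comp e.symm.toLinearMap
  let D : Derivation L K K := Λ.compDer (KaehlerDifferential.D L K)
  refine ⟨D, fun i => ?_⟩
  have h5 : t i = algebraMap (MvPolynomial ι L) K (X i) := by
    simp [RingHom.algebraMap_toAlgebra]
  change Λ (KaehlerDifferential.D L K (t i)) = c i
  change LinearMap.liftBaseChange K l (e.symm (KaehlerDifferential.D L K (t i))) = c i
  rw [h5, KaehlerDifferential.tensorKaehlerEquivOfFormallyEtale_symm_D_algebraMap]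
  simp [l, d]

end ext

variable {k K : Type} [Field k] [Field K] [Algebra k K]

end Pool.Agent.W602.GT
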